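import Pool.Agent.R703.HZ.Main

set_option autoImplicit false

/-!
# Horrocks' inequality and the chambers of the arrangement of the degrees of the variables

Let `M` be a nonzero module of finite length over `k[X_1, …, X_m]`, supported at the origin, with a grading by
`ℤ^r` for which `X_j` has degree `deg j`, and let `F` be a resolution of `M` by finite free modules. The degrees
`deg j` define an arrangement of hyperplanes in the space of the functionals `l : ℤ^r → ℤ`. A set `J` of variables is
separated (`Sep deg J`) if there is a functional which is positive on the degrees of the variables in `J` and negative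
on the others; if all degrees are nonzero these sets are in bijection with the chambers.

* `rank F_i` is at least the number of the separated sets with `i` elements. So the sum of the ranks is at least the
  number of chambers, for `m` vectors in general position `2 ∑_{j < r} binom(m-1, j)`, which is `2^m - 2 m` for
  `r = m - 2` and at least `2^(m-1)` for `2 r ≥ m + 1`.
* Horrocks' inequality `rank F_i ≥ binom(m, i)` holds for `i` and for `m - i` if all sets of `i` variables are
  separated. This depends only on the degrees of the variables and is possible for `r = 2 i + 1` and all `m`, for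
  example for the vectors `deg j = (1, τ_j, …, τ_j^(r-1))` on the moment curve, `2 i < r`.
* More generally `rank F_i ≥ N i` for the functions `N` in the class `LB`, which is closed under the face rule: for
  functionals `l_1, …, l_q`, any two of which have opposite signs at some degree,
  `N i = ∑ N_t (i - #{j | l_t (deg j) > 0})`, where `N_t` is a lower bound for the variables with
  `l_t (deg j) = 0`; and under the rule that one or two variables with `l (deg j) ≠ 0` may be added. It contains the
  binomial coefficients for at most four variables.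
-/

namespace Pool.Agent.Results.MP_e2ce73_al.ChamberBounds

open MvPolynomial Pool.Agent.R703.HZ

universe u v

open Classical in
theorem result (k : Type u) [Field k] (m r : ℕ) (deg : Fin m → Fin r → ℤ)
    (M : Type v) [AddCommGroup M] [Module k M] [FiniteDimensional k M] [Nontrivial M]
    [Module (MvPolynomial (Fin m) k) M] [IsScalarTower k (MvPolynomial (Fin m) k) M]
    (ℳ : (Fin r → ℤ) → Submodule k M) (hℳ : DirectSum.IsInternal ℳ)
    (hX : ∀ (j : Fin m) (a : Fin r → ℤ), ∀ x ∈ ℳ a,
      (X j : MvPolynomial (Fin m) k) • x ∈ ℳ (a + deg j))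
    (hnil : ∀ j : Fin m, ∃ N : ℕ, ∀ x : M, (X j : MvPolynomial (Fin m) k) ^ N • x = 0)
    (F : ℕ → Type v) [∀ i, AddCommGroup (F i)] [∀ i, Module (MvPolynomial (Fin m) k) (F i)]
    [∀ i, Module.Free (MvPolynomial (Fin m) k) (F i)]
    [∀ i, Module.Finite (MvPolynomial (Fin m) k) (F i)]
    (d : ∀ i, F (i + 1) →ₗ[MvPolynomial (Fin m) k] F i)
    (ε : F 0 →ₗ[MvPolynomial (Fin m) k] M) (hε : Function.Surjective ε)
    (hd0 : LinearMap.range (d 0) = LinearMap.ker ε)
    (hd : ∀ i, LinearMap.range (d (i + 1)) = LinearMap.ker (d i)) :
    (∀ N : ℕ → ℕ, LB deg Finset.univ N → ∀ i, N i ≤ Module.finrank (MvPolynomial (Fin m) k) (F i)) ∧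
    (∀ i : ℕ, (Finset.univ.filter fun J : Finset (Fin m) => Sep deg J ∧ J.card = i).card ≤
      Module.finrank (MvPolynomial (Fin m) k) (F i)) ∧
    (∀ i : ℕ, i ≤ m → (∀ J : Finset (Fin m), J.card = i → Sep deg J) →
      m.choose i ≤ Module.finrank (MvPolynomial (Fin m) k) (F i) ∧
      m.choose i ≤ Module.finrank (MvPolynomial (Fin m) k) (F (m - i))) ∧
    ∀ τ : Fin m → ℤ, Function.Injective τ → (∀ j (t : Fin r), deg j t = τ j ^ (t : ℕ)) →
      ∀ i : ℕ, i ≤ m → 2 * i < r → m.choose i ≤ Module.finrank (MvPolynomial (Fin m) k) (F i) ∧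
        m.choose i ≤ Module.finrank (MvPolynomial (Fin m) k) (F (m - i)) := by
  have h1 : ∀ N : ℕ → ℕ, LB deg Finset.univ N → ∀ i, N i ≤ Module.finrank (MvPolynomial (Fin m) k) (F i) :=
    fun N hN i => main_poly k m M deg ℳ hℳ hX hnil F d ε hε hd0 hd N hN i
  have h2 : ∀ i : ℕ, i ≤ m → (∀ J : Finset (Fin m), J.card = i → Sep deg J) →
      m.choose i ≤ Module.finrank (MvPolynomial (Fin m) k) (F i) ∧
      m.choose i ≤ Module.finrank (MvPolynomial (Fin m) k) (F (m - i)) := by
    intro i hi h
    obtain ⟨N, hN, h3, h4⟩ := LB_nb deg i hi h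
    exact ⟨h3.trans (h1 N hN _), h4.trans (h1 N hN _)⟩
  refine ⟨h1, fun i => ?_, h2, fun τ hτ hdeg i hi hir => h2 i hi fun J hJ => ?_⟩
  · obtain ⟨N, hN, h3⟩ := LB_sep deg
    refine le_trans (le_of_eq ?_) ((h3 i).trans (h1 N hN i))
    congr
  · have h3 : deg = fun j (t : Fin r) => τ j ^ (t : ℕ) := funext fun j => funext fun t => hdeg j t
    rw [h3]
    exact sep_moment τ hτ i hir J hJ

end Pool.Agent.Results.MP_e2ce73_al.ChamberBounds
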