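import Pool.Agent.R114.BS.Tables

set_option autoImplicit false

/-!
# Horrocks' inequality on the Boij–Söderberg cone: the exact range, and 5/2 instead of 2

`pureBetti n d i = 1 / ∏_{j ≠ i} |d_j - d_i|` are the total Betti numbers of the pure table of type
`d_0 < … < d_n`. `InCone n a b β` says that `β` are the total Betti numbers of a nonnegative
combination of pure tables of types with `d_0 ≤ 0`, `a ≤ d_1`, `d_n ≤ b` (`1 ≤ a`,
`a + n - 1 ≤ b`).

(1) For every `1 ≤ i ≤ n` the inequality `n.choose i * β_0 ≤ β_i` holds on the whole cone if and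
only if `n.choose i * (x-a)_{i-1} * (b-x)_{n-i} ≤ a (a+1) ⋯ (a+i-2) * (b)_{n-i}` for all `x` with
`a+i-1 ≤ x ≤ b-n+i` (falling factorials).

(2) This holds if `n * (b-a)_{n-1} ≤ i * a (a+1) ⋯ (a+i-2) * (b)_{n-i}`; the latter holds for all
`i` if `b ≤ 2 a + n - 2`, and it holds if `n * (b-a)^(n-1) ≤ i * a^(i-1) * b^(n-i)`, in particular
for all `i ≤ n/2` if `b ≤ 5 a / 2` and `n ≥ 6`.

(3) If all the types have `d_1 - d_0 ≥ a`, `d_n - d_{n-1} ≥ a`, `d_n - d_0 ≤ b ≤ 5 a / 2` and
`n ≥ 6`, then `n.choose i * min β_0 β_n ≤ β_i` for all `i`.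
-/

namespace Pool.Agent.Results.MP_e2ce73_al.ConeThreshold

open Pool.Agent.R114.BS

theorem result (n a b : ℕ) (hn : 1 ≤ n) (ha : 1 ≤ a) (hab : a + (n - 1) ≤ b) :
    (∀ i, 1 ≤ i → i ≤ n →
      ((∀ x : ℕ, a + (i - 1) ≤ x → x + (n - i) ≤ b →
          n.choose i * ((x - a).descFactorial (i - 1) * (b - x).descFactorial (n - i)) ≤
            a.ascFactorial (i - 1) * b.descFactorial (n - i)) ↔
        ∀ β : ℕ → ℚ, InCone n a b β → (n.choose i : ℚ) * β 0 ≤ β i)) ∧
    (∀ i, 1 ≤ i → i ≤ n →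
      (n * (b - a).descFactorial (n - 1) ≤
          i * (a.ascFactorial (i - 1) * b.descFactorial (n - i)) →
        ∀ β : ℕ → ℚ, InCone n a b β → (n.choose i : ℚ) * β 0 ≤ β i) ∧
      (b + 2 ≤ 2 * a + n → n * (b - a).descFactorial (n - 1) ≤
          i * (a.ascFactorial (i - 1) * b.descFactorial (n - i))) ∧
      (n * (b - a) ^ (n - 1) ≤ i * (a ^ (i - 1) * b ^ (n - i)) →
        n * (b - a).descFactorial (n - 1) ≤
          i * (a.ascFactorial (i - 1) * b.descFactorial (n - i))) ∧
      (6 ≤ n → 2 * b ≤ 5 * a → 2 * i ≤ n →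
        n * (b - a) ^ (n - 1) ≤ i * (a ^ (i - 1) * b ^ (n - i)))) ∧
    (6 ≤ n → 2 * b ≤ 5 * a → ∀ β : ℕ → ℚ, InSymCone n a b β → ∀ i ≤ n,
      (n.choose i : ℚ) * min (β 0) (β n) ≤ β i) := by
  have hcone : ∀ i, 1 ≤ i → i ≤ n → Extremal n i a b →
      ∀ β : ℕ → ℚ, InCone n a b β → (n.choose i : ℚ) * β 0 ≤ β i := by
    rintro i hi hin hE β ⟨s, c, d, hc, hd, hβ⟩
    rw [hβ 0 (Nat.zero_le _), hβ i hin]
    exact sum_ineq n i 0 _ c d hc fun t => pure_ineq n i a b ha hi hin (d t) (hd t) hE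
  refine ⟨fun i hi hin => ⟨fun hE => hcone i hi hin hE,
    extremal_of_cone n i a b ha hi hin⟩, fun i hi hin => ⟨fun hE =>
      hcone i hi hin (extremal_of_product n i a b hi hin hE),
      product_of_erman n i a b ha hi hin,
      product_of_power n i a b ha (by omega) hi hin, fun h6 h5 h2 =>
        power_of_half n i a b (by omega) hi h6 h2 h5⟩, ?_⟩
  rintro h6 h5 β ⟨s, c, d, hc, hd, hβ⟩ i hin
  have hext : ∀ k, 1 ≤ k → 2 * k ≤ n → Extremal n k a b := fun k hk hk2 =>
    extremal_of_product n k a b hk (by omega) (product_of_power n k a b ha (by omega) hk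
      (by omega) (power_of_half n k a b (by omega) hk h6 hk2 h5))
  have hβ0 : ∀ k ≤ n, 0 ≤ β k := fun k hk => by
    rw [hβ k hk]
    refine Finset.sum_nonneg fun t _ => mul_nonneg (hc t) ?_
    exact inv_nonneg.2 (Finset.prod_nonneg fun j _ => abs_nonneg _)
  rcases Nat.eq_zero_or_pos i with rfl | hi
  · simp
  rcases Nat.lt_or_ge (n - i) 1 with h0 | h0
  · have : i = n := by omega
    subst this
    simp
  rcases le_total (2 * i) n with h | h
  · refine le_trans (mul_le_mul_of_nonneg_left (min_le_left _ _) (by positivity)) ?_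
    rw [hβ 0 (Nat.zero_le _), hβ i hin]
    refine sum_ineq n i 0 _ c d hc fun t => ?_
    have hdt := hd t
    have := pure_ineq n i a b ha hi hin (fun j => d t j - d t 0)
      ⟨fun j hj => by have := hdt.1 j hj; omega, by simp, by simpa using hdt.2.1,
        by simpa using hdt.2.2.2⟩ (hext i hi h)
    rwa [pureBetti_congr n (d t) (fun j => d t j - d t 0) (d t 0) (fun j _ => rfl) 0
      (Nat.zero_le _), pureBetti_congr n (d t) (fun j => d t j - d t 0) (d t 0) (fun j _ => rfl)
      i hin] at this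
  · refine le_trans (mul_le_mul_of_nonneg_left (min_le_right _ _) (by positivity)) ?_
    rw [hβ n le_rfl, hβ i hin]
    refine sum_ineq n i n _ c d hc fun t => ?_
    have hdt := hd t
    have := pure_ineq n (n - i) a b ha h0 (by omega) (fun j => d t n - d t (n - j))
      ⟨fun j hj => by
        have h1 := hdt.1 (n - (j + 1)) (by omega)
        have h2 : n - (j + 1) + 1 = n - j := by omega
        rw [h2] at h1
        omega, by simp, by simpa using hdt.2.2.1,
        by simpa using hdt.2.2.2⟩ (hext (n - i) h0 (by omega))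
    rw [pureBetti_reflect n (d t) (fun j => d t n - d t (n - j)) (d t n) (fun j _ => rfl) i
      hin, Nat.choose_symm hin] at this
    have h3 := pureBetti_reflect n (d t) (fun j => d t n - d t (n - j)) (d t n)
      (fun j _ => rfl) n le_rfl
    rw [Nat.sub_self] at h3
    rwa [h3] at this

end Pool.Agent.Results.MP_e2ce73_al.ConeThreshold
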