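import Pool.Agent.R873.HB.Sharp

set_option autoImplicit false

/-!
# Horrocks' inequality on the Boij–Söderberg cone: the exact asymptotic range

`pureBetti n d i = 1 / ∏_{j ≠ i} |d_j - d_i|` are the total Betti numbers of the pure table of type
`d_0 < … < d_n`. `InGapCone n g h w β` says that `β` are the total Betti numbers of a nonnegative
combination of pure tables of types with first gap `d_1 - d_0 ≥ g`, last gap
`d_n - d_(n-1) ≥ h` and interior width `d_(n-1) - d_1 ≤ w`. Put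
`cut l = 1 - log l / log (1 + l)`.

(1) If `t < cut l` and `t < 1`, then for all `n ≥ n₀(l, t)` the inequality
`n.choose i * β_0 ≤ β_i` holds for all `i ≤ t n` on every such cone with `w ≤ l g`.

(2) If `t > cut l`, then for all `n ≥ n₀` it fails for every `i` with `t n ≤ i < n`.

(3) If `cut l + cut l' > 1`, then for all `n ≥ n₀(l, l')` the inequality
`n.choose i * min β_0 β_n ≤ β_i` holds for all `i` on every cone with `w ≤ l g`, `w ≤ l' h`.

(4) If `cut l + cut l' < 1`, then for all `n ≥ n₀` it fails.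

(5) For `l = l'` the threshold is the golden ratio.

(6) For `w ≤ g` and `w ≤ h` one can take `n₀ = 4`.
-/

namespace Pool.Agent.Results.MP_e2ce73_al.GoldenThreshold

open Pool.Agent.R114.BS Pool.Agent.R873.HB Filter

lemma one_sided (N g h w i : ℕ) (hg : 1 ≤ g) (β : ℕ → ℚ) (hβ : InGapCone (N + 1) g h w β)
    (H : 1 ≤ i → i ≤ N ∧ Exact N i g w) : ((N + 1).choose i : ℚ) * β 0 ≤ β i := by
  rcases Nat.eq_zero_or_pos i with rfl | hi
  · simp
  · exact cone_ineq N i g h w hg hi (H hi).1 (H hi).2 β hβ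

lemma two_sided (N g h w i : ℕ) (hg : 1 ≤ g) (hh : 1 ≤ h) (hi : i ≤ N + 1) (β : ℕ → ℚ)
    (hβ : InGapCone (N + 1) g h w β)
    (H : (1 ≤ i → i ≤ N ∧ Exact N i g w) ∨
      (1 ≤ N + 1 - i → N + 1 - i ≤ N ∧ Exact N (N + 1 - i) h w)) :
    ((N + 1).choose i : ℚ) * min (β 0) (β (N + 1)) ≤ β i := by
  rcases H with H | H
  · exact (mul_le_mul_of_nonneg_left (min_le_left _ _) (by positivity)).trans
      (one_sided N g h w i hg β hβ H)
  · refine (mul_le_mul_of_nonneg_left (min_le_right _ _) (by positivity)).trans ?_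
    have h1 := one_sided N h g w (N + 1 - i) hh _ (hβ.reflect (by omega)) H
    have h2 : N + 1 - (N + 1 - i) = i := by omega
    rw [Nat.choose_symm hi, Nat.sub_zero, h2] at h1
    exact h1

lemma golden_lt {l : ℝ} (hl : 0 < l) : l < Real.goldenRatio ↔ l ^ 2 < 1 + l := by
  have h1 := Real.goldenRatio_sq
  have h2 := Real.goldenRatio_pos
  have h3 := Real.one_lt_goldenRatio
  constructor
  · intro h
    nlinarith
  · intro h
    by_contra hc
    push Not at hc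
    nlinarith

lemma golden_gt {l : ℝ} (hl : 0 < l) : Real.goldenRatio < l ↔ 1 + l < l ^ 2 := by
  have h1 := Real.goldenRatio_sq
  have h2 := Real.goldenRatio_pos
  have h3 := Real.one_lt_goldenRatio
  constructor
  · intro h
    nlinarith
  · intro h
    by_contra hc
    push Not at hc
    nlinarith

lemma cut_half_lt {l : ℝ} (hl : 0 < l) : 1 < cut l + cut l ↔ l ^ 2 < 1 + l := by
  have h1 := log_pos' hl
  have h2 : Real.log (l ^ 2) = 2 * Real.log l := by
    rw [Real.log_pow]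
    norm_num
  rw [← Real.log_lt_log_iff (show 0 < l ^ 2 by positivity) (show 0 < 1 + l by linarith), h2]
  unfold cut
  constructor
  · intro h
    have h3 : Real.log l / Real.log (1 + l) < 1 / 2 := by linarith
    rw [div_lt_iff₀ h1] at h3
    linarith
  · intro h
    have h3 : Real.log l / Real.log (1 + l) < 1 / 2 := by
      rw [div_lt_iff₀ h1]
      linarith
    linarith

lemma cut_half_gt {l : ℝ} (hl : 0 < l) : cut l + cut l < 1 ↔ 1 + l < l ^ 2 := by
  have h1 := log_pos' hl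
  have h2 : Real.log (l ^ 2) = 2 * Real.log l := by
    rw [Real.log_pow]
    norm_num
  rw [← Real.log_lt_log_iff (show 0 < 1 + l by linarith) (show 0 < l ^ 2 by positivity), h2]
  unfold cut
  constructor
  · intro h
    have h3 : 1 / 2 < Real.log l / Real.log (1 + l) := by linarith
    rw [lt_div_iff₀ h1] at h3
    linarith
  · intro h
    have h3 : 1 / 2 < Real.log l / Real.log (1 + l) := by
      rw [lt_div_iff₀ h1]
      linarith
    linarith

lemma upper_all (l t : ℝ) (hl : 0 < l) (ht : t < cut l) (ht1 : t < 1) :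
    ∃ n₀ : ℕ, ∀ N : ℕ, n₀ ≤ N + 1 → ∀ g w i : ℕ, 1 ≤ g → (w : ℝ) ≤ l * g →
      (i : ℝ) ≤ t * (N + 1) → (1 ≤ i → i ≤ N ∧ Exact N i g w) := by
  obtain ⟨n₀, h⟩ := exists_upper l t hl ht ht1
  exact ⟨n₀, fun N hN g w i hg hw hi hi1 => h N hN g w i hg hw hi1 hi⟩

lemma ceil_pos' {l : ℝ} (hl : 0 < l) {w : ℕ} (hw : 0 < w) : 1 ≤ ⌈(w : ℝ) / l⌉₊ :=
  Nat.ceil_pos.2 (div_pos (by exact_mod_cast hw) hl)

theorem result :
    (∀ l t : ℝ, 0 < l → t < cut l → t < 1 → ∃ n₀ : ℕ, ∀ n ≥ n₀, ∀ g h w : ℕ, 1 ≤ g →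
      (w : ℝ) ≤ l * g → ∀ β : ℕ → ℚ, InGapCone n g h w β → ∀ i : ℕ, (i : ℝ) ≤ t * n →
        (n.choose i : ℚ) * β 0 ≤ β i) ∧
    (∀ l l' t : ℝ, 0 < l → 0 < l' → cut l < t → ∃ n₀ : ℕ, ∀ n ≥ n₀, ∀ i < n,
      t * n ≤ (i : ℝ) → ∀ᶠ w : ℕ in atTop, ∃ d : ℕ → ℤ,
        GapSeq n ⌈(w : ℝ) / l⌉₊ ⌈(w : ℝ) / l'⌉₊ w d ∧
        pureBetti n d i < (n.choose i : ℚ) * pureBetti n d 0) ∧
    (∀ l l' : ℝ, 0 < l → 0 < l' → 1 < cut l + cut l' → ∃ n₀ : ℕ, ∀ n ≥ n₀, ∀ g h w : ℕ,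
      1 ≤ g → 1 ≤ h → (w : ℝ) ≤ l * g → (w : ℝ) ≤ l' * h → ∀ β : ℕ → ℚ,
      InGapCone n g h w β → ∀ i ≤ n, (n.choose i : ℚ) * min (β 0) (β n) ≤ β i) ∧
    (∀ l l' : ℝ, 0 < l → 0 < l' → cut l + cut l' < 1 → ∃ n₀ : ℕ, ∀ n ≥ n₀, ∃ i ≤ n,
      ∀ᶠ w : ℕ in atTop, ∃ d : ℕ → ℤ, GapSeq n ⌈(w : ℝ) / l⌉₊ ⌈(w : ℝ) / l'⌉₊ w d ∧
        pureBetti n d i < (n.choose i : ℚ) * min (pureBetti n d 0) (pureBetti n d n)) ∧
    (∀ l : ℝ, 0 < l → (1 < cut l + cut l ↔ l < Real.goldenRatio) ∧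
      (cut l + cut l < 1 ↔ Real.goldenRatio < l)) ∧
    (∀ n g h w : ℕ, 4 ≤ n → 1 ≤ g → 1 ≤ h → w ≤ g → w ≤ h → ∀ β : ℕ → ℚ,
      InGapCone n g h w β → ∀ i ≤ n, (n.choose i : ℚ) * min (β 0) (β n) ≤ β i) := by
  refine ⟨?_, ?_, ?_, ?_, ?_, ?_⟩
  · intro l t hl ht ht1
    obtain ⟨n₀, h0⟩ := upper_all l t hl ht ht1
    refine ⟨n₀ + 1, fun n hn g h w hg hw β hβ i hi => ?_⟩
    obtain ⟨N, rfl⟩ : ∃ N, n = N + 1 := ⟨n - 1, by omega⟩
    push_cast at hi
    exact one_sided N g h w i hg β hβ (h0 N (by omega) g w i hg hw hi)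
  · intro l l' t hl hl' ht
    obtain ⟨n₀, h0⟩ := exists_sharp l l' t hl hl' ht
    refine ⟨n₀, fun n hn i hi hti => ?_⟩
    obtain ⟨N, rfl⟩ : ∃ N, n = N + 1 := ⟨n - 1, by omega⟩
    push_cast at hti
    have hi1 : 1 ≤ i := by
      have h1 := cut_pos hl
      have h2 : (0 : ℝ) < t * (N + 1) := by
        have : (0 : ℝ) < (N : ℝ) + 1 := by positivity
        exact mul_pos (by linarith) this
      have h3 : (0 : ℝ) < i := by linarith
      exact_mod_cast h3
    filter_upwards [h0 N hn i hi1 (by omega) hti, eventually_ge_atTop (N + 1)] with w hw hwN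
    obtain ⟨d, hd, hf, -⟩ := fail N i ⌈(w : ℝ) / l⌉₊ ⌈(w : ℝ) / l'⌉₊ w
      (ceil_pos' hl (by omega)) (ceil_pos' hl' (by omega)) hi1 (by omega) (by omega)
    exact ⟨d, hd, hf hw⟩
  · intro l l' hl hl' hcut
    have c1 := cut_pos hl
    have c2 := cut_pos hl'
    obtain ⟨t, ht1, ht2⟩ : ∃ t, max 0 (1 - cut l') < t ∧ t < min 1 (cut l) :=
      exists_between (max_lt (lt_min one_pos c1) (lt_min (by linarith) (by linarith)))
    obtain ⟨n₀, h0⟩ := upper_all l t hl (lt_of_lt_of_le ht2 (min_le_right _ _))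
      (lt_of_lt_of_le ht2 (min_le_left _ _))
    have ht0 := lt_of_le_of_lt (le_max_left _ _) ht1
    have ht3 := lt_of_le_of_lt (le_max_right _ _) ht1
    obtain ⟨n₁, h1⟩ := upper_all l' (1 - t) hl' (by linarith) (by linarith)
    refine ⟨max n₀ n₁ + 1, fun n hn g h w hg hh hw hw' β hβ i hi => ?_⟩
    have hn0 : n₀ ≤ n := by have := le_max_left n₀ n₁; omega
    have hn1 : n₁ ≤ n := by have := le_max_right n₀ n₁; omega
    obtain ⟨N, rfl⟩ : ∃ N, n = N + 1 := ⟨n - 1, by omega⟩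
    refine two_sided N g h w i hg hh hi β hβ ?_
    rcases le_total (i : ℝ) (t * ((N : ℝ) + 1)) with hle | hle
    · exact Or.inl (h0 N hn0 g w i hg hw hle)
    · refine Or.inr (h1 N hn1 h w (N + 1 - i) hh hw' ?_)
      rw [Nat.cast_sub hi]
      push_cast
      nlinarith
  · intro l l' hl hl' hcut
    set δ : ℝ := (1 - cut l - cut l') / 4 with hδ
    have hδ0 : 0 < δ := by rw [hδ]; linarith
    have c1 := cut_pos hl
    have c2 := cut_pos hl'
    obtain ⟨n₀, h0⟩ := exists_sharp l l' (cut l + δ) hl hl' (by linarith)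
    obtain ⟨n₁, h1⟩ := exists_sharp l' l (cut l' + δ) hl' hl (by linarith)
    obtain ⟨n₂, h2⟩ := exists_nat_gt (1 / (2 * δ))
    refine ⟨max (max n₀ n₁) n₂ + 1, fun n hn => ?_⟩
    have hn0 : n₀ ≤ n := by
      have := le_max_left n₀ n₁
      have := le_max_left (max n₀ n₁) n₂
      omega
    have hn1 : n₁ ≤ n := by
      have := le_max_right n₀ n₁
      have := le_max_left (max n₀ n₁) n₂
      omega
    have hn2 : n₂ ≤ n := by
      have := le_max_right (max n₀ n₁) n₂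
      omega
    obtain ⟨N, rfl⟩ : ∃ N, n = N + 1 := ⟨n - 1, by omega⟩
    have hNpos : (0 : ℝ) < (N : ℝ) + 1 := by positivity
    have hbig : 1 < 2 * δ * ((N : ℝ) + 1) := by
      have h3 : (n₂ : ℝ) ≤ (N : ℝ) + 1 := by exact_mod_cast hn2
      have h4 : 1 / (2 * δ) < (N : ℝ) + 1 := lt_of_lt_of_le h2 h3
      rw [div_lt_iff₀ (by linarith)] at h4
      linarith
    set i : ℕ := ⌈(cut l + δ) * ((N : ℝ) + 1)⌉₊ with hi
    have hlo : (cut l + δ) * ((N : ℝ) + 1) ≤ i := Nat.le_ceil _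
    have hlt : (i : ℝ) < (cut l + δ) * ((N : ℝ) + 1) + 1 :=
      Nat.ceil_lt_add_one (by positivity)
    have hup : (i : ℝ) ≤ (1 - (cut l' + δ)) * ((N : ℝ) + 1) := by
      have h5 : (1 - (cut l' + δ)) = (cut l + δ) + 2 * δ := by rw [hδ]; ring
      rw [h5]
      nlinarith
    have hi1 : 1 ≤ i := by
      have h3 : (0 : ℝ) < i := lt_of_lt_of_le (by positivity) hlo
      exact_mod_cast h3
    have hiN : i ≤ N := by
      have h3 : (i : ℝ) < (N : ℝ) + 1 := by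
        refine lt_of_le_of_lt hup ?_
        nlinarith
      have h4 : i < N + 1 := by exact_mod_cast h3
      omega
    refine ⟨i, by omega, ?_⟩
    have hi' : (cut l' + δ) * ((N : ℝ) + 1) ≤ ((N + 1 - i : ℕ) : ℝ) := by
      rw [Nat.cast_sub (by omega)]
      push_cast
      nlinarith
    filter_upwards [h0 N hn0 i hi1 hiN hlo,
      h1 N hn1 (N + 1 - i) (by omega) (by omega) hi', eventually_ge_atTop (N + 1)]
      with w hw hw' hwN
    obtain ⟨d, hd, hf, hf'⟩ := fail N i ⌈(w : ℝ) / l⌉₊ ⌈(w : ℝ) / l'⌉₊ w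
      (ceil_pos' hl (by omega)) (ceil_pos' hl' (by omega)) hi1 hiN (by omega)
    have e1 : N + 1 - i - 1 = N - i := by omega
    have e2 : N - (N + 1 - i) = i - 1 := by omega
    rw [e1, e2] at hw'
    refine ⟨d, hd, ?_⟩
    rcases min_choice (pureBetti (N + 1) d 0) (pureBetti (N + 1) d (N + 1)) with hm | hm
    · rw [hm]
      exact hf hw
    · rw [hm]
      exact hf' hw'
  · intro l hl
    rw [cut_half_lt hl, cut_half_gt hl, golden_lt hl, golden_gt hl]
    exact ⟨Iff.rfl, Iff.rfl⟩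
  · intro n g h w h6 hg hh hw hw' β hβ i hi
    obtain ⟨N, rfl⟩ : ∃ N, n = N + 1 := ⟨n - 1, by omega⟩
    refine two_sided N g h w i hg hh hi β hβ ?_
    rcases Nat.lt_or_ge (N + 1) (2 * i) with hlt | hge
    · exact Or.inr fun h1 => ⟨by omega,
        exact_of_width N (N + 1 - i) h w hh h1 (by omega) h6 hw'⟩
    · exact Or.inl fun h1 => ⟨by omega, exact_of_width N i g w hg h1 hge h6 hw⟩

end Pool.Agent.Results.MP_e2ce73_al.GoldenThreshold
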