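import Pool.Agent.R831.HW2

set_option autoImplicit false

/-!
# The Poincaré polynomial of a graded module of finite length at a positive real number

Let `M ≠ 0` be a graded module of finite length over `S = k[v_1, …, v_m]`, `char k = 0`,
`deg v_j > 0`, let `h_a = dim M_a`, let `β_{i,g}` be the graded Betti numbers (dimensions of the
Koszul homology) and `β_i` the ranks in a free resolution. For all real `x > 0`

`∏ j, (1 + x ^ deg v_j) * ∑ a, h_a x ^ (2 a) ≤ (∑ a, h_a x ^ a) * ∑ i, ∑ g, β_{i,g} x ^ g`,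

with equality for all complete intersections; for `x = 1` this is the total rank inequality. For the
standard grading, `M_a = 0` for `a` outside `{0, …, t}`, and `μ` the mean degree of `M`,

`∑ i, β_i x ^ i ≥ x ^ μ * (1 + x) ^ m` for `0 < x ≤ 1`, and
`∑ i, β_i x ^ i ≥ x ^ (μ - t) * (1 + x) ^ m` for `x ≥ 1`,

where Horrocks' conjecture would give `(1 + x) ^ m`. There is also the inequality
`m.choose i ≤ ∑ a, h_a * β_{i, i + a}` for the individual Betti numbers.
-/

namespace Pool.Agent.Results.MP_e2ce73_al.WeightedTotalRank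

open MvPolynomial Pool.Agent.W650 Pool.Agent.Y577.BT Pool.Agent.R831.HW

universe u v

/-- the dimension of the part of internal degree `g` of the `i`-th homology of the Koszul complex of
the variables on `M`: the graded Betti number `β_{i,g}` -/
noncomputable abbrev gradedBetti (k : Type u) [Field k] (m : ℕ) (M : Type v) [AddCommGroup M]
    [Module k M] [Module (MvPolynomial (Fin m) k) M] [IsScalarTower k (MvPolynomial (Fin m) k) M]
    (deg : Fin m → ℤ) (ℳ : ℤ → Submodule k M) (i : ℕ) (g : ℤ) : ℕ :=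
  gb k (fun j => (X j : MvPolynomial (Fin m) k)) deg ℳ i g

/-- **The result.** -/
theorem result (k : Type u) [Field k] [CharZero k] (m : ℕ)
    (M : Type v) [AddCommGroup M] [Module k M] [FiniteDimensional k M] [Nontrivial M]
    [Module (MvPolynomial (Fin m) k) M] [IsScalarTower k (MvPolynomial (Fin m) k) M]
    (deg : Fin m → ℤ) (hdeg : ∀ j, 0 < deg j) (ℳ : ℤ → Submodule k M)
    (hℳ : DirectSum.IsInternal ℳ)
    (hX : ∀ (j : Fin m) (a : ℤ), ∀ y ∈ ℳ a,
      (X j : MvPolynomial (Fin m) k) • y ∈ ℳ (a + deg j))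
    (R : FreeRes (MvPolynomial (Fin m) k) M)
    (s : Finset ℤ) (hs : ∀ a, ℳ a ≠ ⊥ → a ∈ s)
    (T : Finset ℤ) (hT : ∀ a ∈ s, ∀ J : Finset (Fin m), a + ∑ j ∈ J, deg j ∈ T) :
    -- the graded Betti numbers: where they live, and the resolution
    ((∀ i g, gradedBetti k m M deg ℳ i g ≠ 0 → g ∈ T ∧
        ∃ J : Finset (Fin m), J.card = i ∧ ℳ (g - ∑ j ∈ J, deg j) ≠ ⊥) ∧
      ∀ i, ∑ g ∈ T, gradedBetti k m M deg ℳ i g ≤ R.rank i) ∧
    -- the graded total rank inequality
    (∀ x : ℝ, 0 < x →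
      (∏ j, (1 + x ^ deg j)) * ∑ a ∈ s, (Module.finrank k (ℳ a) : ℝ) * (x ^ a) ^ 2 ≤
        (∑ a ∈ s, (Module.finrank k (ℳ a) : ℝ) * x ^ a) *
          ∑ i ∈ Finset.range (m + 1), ∑ g ∈ T, (gradedBetti k m M deg ℳ i g : ℝ) * x ^ g) ∧
    -- its consequence for the ranks in a resolution, for arbitrary weights
    (∀ x : ℝ, 0 < x → ∀ w : ℕ → ℝ,
      (∀ (a : ℤ) (J : Finset (Fin m)), ℳ a ≠ ⊥ → x ^ (a + ∑ j ∈ J, deg j) ≤ w J.card) →
      (∏ j, (1 + x ^ deg j)) * ∑ a ∈ s, (Module.finrank k (ℳ a) : ℝ) * (x ^ a) ^ 2 ≤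
        (∑ a ∈ s, (Module.finrank k (ℳ a) : ℝ) * x ^ a) *
          ∑ i ∈ Finset.range (m + 1), w i * R.rank i ∧
      x ^ ((∑ a ∈ s, (a : ℝ) * Module.finrank k (ℳ a)) /
          ∑ a ∈ s, (Module.finrank k (ℳ a) : ℝ)) * ∏ j, (1 + x ^ deg j) ≤
        ∑ i ∈ Finset.range (m + 1), w i * R.rank i) ∧
    -- the standard grading
    ((∀ j, deg j = 1) → ∀ t : ℕ, (∀ a, ℳ a ≠ ⊥ → 0 ≤ a ∧ a ≤ t) → ∀ x : ℝ, 0 < x →
      (x ≤ 1 → x ^ ((∑ a ∈ s, (a : ℝ) * Module.finrank k (ℳ a)) /
          ∑ a ∈ s, (Module.finrank k (ℳ a) : ℝ)) * (1 + x) ^ m ≤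
        ∑ i ∈ Finset.range (m + 1), (R.rank i : ℝ) * x ^ i) ∧
      (1 ≤ x → x ^ ((∑ a ∈ s, (a : ℝ) * Module.finrank k (ℳ a)) /
          ∑ a ∈ s, (Module.finrank k (ℳ a) : ℝ) - t) * (1 + x) ^ m ≤
        ∑ i ∈ Finset.range (m + 1), (R.rank i : ℝ) * x ^ i)) ∧
    -- individual Betti numbers
    ((∀ (i : ℕ) (D : ℤ), ((Finset.univ : Finset (Finset (Fin m))).filter
        (fun J => J.card = i ∧ ∑ j ∈ J, deg j = D)).card ≤
        ∑ a ∈ s, Module.finrank k (ℳ a) * gradedBetti k m M deg ℳ i (D + a)) ∧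
      ((∀ j, deg j = 1) → ∀ i, m.choose i ≤
        ∑ a ∈ s, Module.finrank k (ℳ a) * gradedBetti k m M deg ℳ i (i + a))) := by
  classical
  have hreg : RegularSeq (fun j => (X j : MvPolynomial (Fin m) k)) := by
    intro l s hs
    exact X_regular (Set.Iio l) l (by simp) s hs
  have hspan : ∀ s : MvPolynomial (Fin m) k ⧸
      Ideal.span (Set.range fun j => (X j : MvPolynomial (Fin m) k)),
      ∃ c : k, c • (1 : MvPolynomial (Fin m) k ⧸
        Ideal.span (Set.range fun j => (X j : MvPolynomial (Fin m) k))) = s := by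
    intro s
    obtain ⟨p, rfl⟩ := Ideal.Quotient.mk_surjective s
    refine ⟨constantCoeff p, ?_⟩
    have : (constantCoeff p) • (1 : MvPolynomial (Fin m) k ⧸
        Ideal.span (Set.range fun j => (X j : MvPolynomial (Fin m) k))) =
        Ideal.Quotient.mk _ (C (constantCoeff p)) := by
      have h3 : (C (constantCoeff p) : MvPolynomial (Fin m) k) =
          (constantCoeff p) • (1 : MvPolynomial (Fin m) k) := by
        rw [smul_eq_C_mul, mul_one]
      rw [h3]
      rfl
    rw [this, Ideal.Quotient.eq]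
    exact (mem_span_X_iff (C (constantCoeff p) - p)).2 (by
      rw [map_sub, constantCoeff_C, sub_self])
  have hfin : Module.Finite k (MvPolynomial (Fin m) k ⧸
      Ideal.span (Set.range fun j => (X j : MvPolynomial (Fin m) k))) := by
    refine ⟨⟨{1}, ?_⟩⟩
    rw [eq_top_iff]
    intro s _
    obtain ⟨c, rfl⟩ := hspan s
    exact Submodule.smul_mem _ c (Submodule.subset_span (by simp))
  have h1 : Module.finrank k (MvPolynomial (Fin m) k ⧸
      Ideal.span (Set.range fun j => (X j : MvPolynomial (Fin m) k))) ≤ 1 :=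
    finrank_le_one _ hspan
  -- nilpotency
  have hnil : ∀ j : Fin m, ∃ N : ℕ, ∀ y : M, (X j : MvPolynomial (Fin m) k) ^ N • y = 0 := by
    intro j
    obtain ⟨B, hB⟩ : ∃ B : ℕ, ∀ a ∈ s, |a| ≤ (B : ℤ) := by
      refine ⟨∑ a ∈ s, a.natAbs, fun a ha => ?_⟩
      rw [Int.abs_eq_natAbs]
      exact_mod_cast Finset.single_le_sum (f := fun a : ℤ => a.natAbs)
        (fun _ _ => Nat.zero_le _) ha
    have hpow : ∀ (n : ℕ) (a : ℤ), ∀ y ∈ ℳ a,
        (X j : MvPolynomial (Fin m) k) ^ n • y ∈ ℳ (a + n * deg j) := by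
      intro n
      induction n with
      | zero => intro a y hy; simpa using hy
      | succ n ih =>
        intro a y hy
        have h2 := hX j _ _ (ih a y hy)
        rw [smul_smul, ← pow_succ'] at h2
        have h3 : a + ((n + 1 : ℕ) : ℤ) * deg j = a + n * deg j + deg j := by push_cast; ring
        rwa [h3]
    refine ⟨2 * B + 1, fun y => ?_⟩
    have hy : y ∈ ⨆ p, ℳ p := by
      rw [hℳ.submodule_iSup_eq_top]
      exact Submodule.mem_top
    induction hy using Submodule.iSup_induction' with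
    | mem a y hy =>
      by_cases ha : ℳ a = ⊥
      · rw [ha, Submodule.mem_bot] at hy
        rw [hy, smul_zero]
      · have h1 := hpow (2 * B + 1) a y hy
        have h2 : ℳ (a + ((2 * B + 1 : ℕ) : ℤ) * deg j) = ⊥ := by
          by_contra hcon
          have h3 := hB _ (hs _ hcon)
          have h4 := hB _ (hs _ ha)
          rw [abs_le] at h3 h4
          have h5 := hdeg j
          have h6 : ((2 * B + 1 : ℕ) : ℤ) ≤ ((2 * B + 1 : ℕ) : ℤ) * deg j :=
            le_mul_of_one_le_right (by positivity) (by omega)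
          push_cast at h3 h6
          omega
        rw [h2, Submodule.mem_bot] at h1
        exact h1
    | zero => rw [smul_zero]
    | add x y _ _ hx hy => rw [smul_add, hx, hy, add_zero]
  obtain ⟨cE, cR, cV, cT⟩ := core k (MvPolynomial (Fin m) k) m
    (fun j => (X j : MvPolynomial (Fin m) k)) hreg M ℤ deg ℳ hℳ hX hnil s hs
  let b : ℕ → ℤ → ℕ := gradedBetti k m M deg ℳ
  let h : ℤ → ℕ := fun a => Module.finrank k (ℳ a)
  have hR : ∀ (i : ℕ) (T : Finset ℤ), ∑ g ∈ T, b i g ≤ R.rank i := by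
    intro i T
    refine (cR R i T).trans ?_
    calc _ ≤ 1 * R.rank i := Nat.mul_le_mul_right _ h1
      _ = _ := one_mul _
  have hV : ∀ i g, b i g ≠ 0 → g ∈ T ∧
        ∃ J : Finset (Fin m), J.card = i ∧ ℳ (g - ∑ j ∈ J, deg j) ≠ ⊥ := by
    intro i g hg
    obtain ⟨J, hJ, hne⟩ := cV i g hg
    refine ⟨?_, J, hJ, hne⟩
    have := hT _ (hs _ hne) J
    rwa [sub_add_cancel] at this
  -- a nonzero piece
  have hpiece : ∃ a, ℳ a ≠ ⊥ := by
    by_contra hcon
    push Not at hcon
    have h5 : (⊤ : Submodule k M) = ⊥ := by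
      rw [← hℳ.submodule_iSup_eq_top]
      simp [hcon]
    exact bot_ne_top h5.symm
  obtain ⟨a₀, ha₀⟩ := hpiece
  have hH : 0 < ∑ a ∈ s, h a := by
    refine Finset.sum_pos' (fun _ _ => Nat.zero_le _) ⟨a₀, hs _ ha₀, ?_⟩
    exact Nat.pos_of_ne_zero fun h0 => ha₀ (Submodule.finrank_eq_zero.1 h0)
  have hA : ∀ x : ℝ, 0 < x →
      (∏ j, (1 + x ^ deg j)) * ∑ a ∈ s, (h a : ℝ) * (x ^ a) ^ 2 ≤
        (∑ a ∈ s, (h a : ℝ) * x ^ a) *
          ∑ i ∈ Finset.range (m + 1), ∑ g ∈ T, (b i g : ℝ) * x ^ g := by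
    intro x hx
    exact eval_le m deg h b s T (fun i g hg => (hV i g hg).1) hT cE (fun a => x ^ a)
      (fun a b => zpow_add₀ hx.ne' a b) (fun a => zpow_pos hx a)
  have hHx : ∀ x : ℝ, 0 < x → 0 < ∑ a ∈ s, (h a : ℝ) * x ^ a := by
    intro x hx
    refine Finset.sum_pos' (fun a _ => mul_nonneg (Nat.cast_nonneg _) (zpow_pos hx a).le)
      ⟨a₀, hs _ ha₀, mul_pos ?_ (zpow_pos hx a₀)⟩
    exact_mod_cast Nat.pos_of_ne_zero fun h0 => ha₀ (Submodule.finrank_eq_zero.1 h0)
  have hC : ∀ x : ℝ, 0 < x → ∀ w : ℕ → ℝ,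
      (∀ (a : ℤ) (J : Finset (Fin m)), ℳ a ≠ ⊥ → x ^ (a + ∑ j ∈ J, deg j) ≤ w J.card) →
      (∏ j, (1 + x ^ deg j)) * ∑ a ∈ s, (h a : ℝ) * (x ^ a) ^ 2 ≤
        (∑ a ∈ s, (h a : ℝ) * x ^ a) *
          ∑ i ∈ Finset.range (m + 1), w i * R.rank i ∧
      x ^ ((∑ a ∈ s, (a : ℝ) * h a) / ∑ a ∈ s, (h a : ℝ)) * ∏ j, (1 + x ^ deg j) ≤
        ∑ i ∈ Finset.range (m + 1), w i * R.rank i := by
    intro x hx w hw
    have hw0 : ∀ i ∈ Finset.range (m + 1), 0 ≤ w i := by
      intro i hi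
      obtain ⟨J, _, hJ⟩ := Finset.exists_subset_card_eq
        (s := (Finset.univ : Finset (Fin m))) (n := i) (by
          rw [Finset.card_univ, Fintype.card_fin]
          have := Finset.mem_range.1 hi
          omega)
      rw [← hJ]
      exact (zpow_pos hx _).le.trans (hw a₀ J ha₀)
    have e1 : ∑ i ∈ Finset.range (m + 1), ∑ g ∈ T, (b i g : ℝ) * x ^ g ≤
        ∑ i ∈ Finset.range (m + 1), w i * R.rank i := by
      refine Finset.sum_le_sum fun i hi => ?_
      have e2 : ∑ g ∈ T, (b i g : ℝ) * x ^ g ≤ ∑ g ∈ T, w i * (b i g : ℝ) := by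
        refine Finset.sum_le_sum fun g _ => ?_
        by_cases hb : b i g = 0
        · rw [hb, Nat.cast_zero, zero_mul, mul_zero]
        · obtain ⟨_, J, hJ, hne⟩ := hV i g hb
          have e3 := hw _ J hne
          rw [sub_add_cancel, hJ] at e3
          rw [mul_comm]
          exact mul_le_mul_of_nonneg_right e3 (Nat.cast_nonneg _)
      refine e2.trans ?_
      rw [← Finset.mul_sum]
      refine mul_le_mul_of_nonneg_left ?_ (hw0 i hi)
      exact_mod_cast hR i T
    have e4 := (hA x hx).trans (mul_le_mul_of_nonneg_left e1 (hHx x hx).le)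
    refine ⟨e4, ?_⟩
    have hprod : (0 : ℝ) ≤ ∏ j, (1 + x ^ deg j) :=
      Finset.prod_nonneg fun j _ => by
        have := zpow_pos hx (deg j)
        linarith
    have e5 := mean_le s h hH x hx
    have e6 := mul_le_mul_of_nonneg_left e5 hprod
    have e7 : (∑ a ∈ s, (h a : ℝ) * x ^ a) *
        (x ^ ((∑ a ∈ s, (a : ℝ) * h a) / ∑ a ∈ s, (h a : ℝ)) * ∏ j, (1 + x ^ deg j)) ≤
        (∑ a ∈ s, (h a : ℝ) * x ^ a) * ∑ i ∈ Finset.range (m + 1), w i * R.rank i := by
      refine le_trans (le_of_eq ?_) (e6.trans e4)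
      ring
    exact le_of_mul_le_mul_left e7 (hHx x hx)
  refine ⟨⟨hV, fun i => hR i T⟩, hA, hC, ?_, ?_, ?_⟩
  · intro hd t ht x hx
    have hprod : ∏ j, (1 + x ^ deg j) = (1 + x) ^ m := by
      simp only [hd, zpow_one, Finset.prod_const, Finset.card_univ, Fintype.card_fin]
    have hsumd : ∀ J : Finset (Fin m), ∑ j ∈ J, deg j = J.card := by
      intro J
      simp only [hd, Finset.sum_const, mul_one, nsmul_eq_mul]
    constructor
    · intro hx1
      have e1 := (hC x hx (fun i => x ^ i) (fun a J ha => by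
        rw [hsumd, ← zpow_natCast x J.card]
        exact zpow_le_zpow_right_of_le_one₀ hx hx1 (by have := (ht a ha).1; omega))).2
      rw [hprod] at e1
      refine e1.trans (le_of_eq ?_)
      exact Finset.sum_congr rfl fun i _ => mul_comm _ _
    · intro hx1
      have e1 := (hC x hx (fun i => x ^ i * x ^ t) (fun a J ha => by
        rw [hsumd, ← pow_add, ← zpow_natCast x]
        exact zpow_le_zpow_right₀ hx1 (by have := (ht a ha).2; push_cast; omega))).2
      rw [hprod] at e1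
      have e2 : ∑ i ∈ Finset.range (m + 1), x ^ i * x ^ t * (R.rank i : ℝ) =
          x ^ t * ∑ i ∈ Finset.range (m + 1), (R.rank i : ℝ) * x ^ i := by
        rw [Finset.mul_sum]
        exact Finset.sum_congr rfl fun i _ => by ring
      rw [e2] at e1
      rw [Real.rpow_sub hx, Real.rpow_natCast, div_mul_eq_mul_div, div_le_iff₀ (pow_pos hx t)]
      refine e1.trans (le_of_eq ?_)
      ring
  · exact cT inferInstance
  · intro hd i
    have hsumd : ∀ J : Finset (Fin m), ∑ j ∈ J, deg j = J.card := by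
      intro J
      simp only [hd, Finset.sum_const, mul_one, nsmul_eq_mul]
    have e1 := cT inferInstance i (i : ℤ)
    refine le_trans (le_of_eq ?_) e1
    have e2 : (Finset.univ : Finset (Finset (Fin m))).filter
        (fun J => J.card = i ∧ ∑ j ∈ J, deg j = (i : ℤ)) =
        Finset.powersetCard i Finset.univ := by
      ext J
      rw [Finset.mem_filter, Finset.mem_powersetCard]
      constructor
      · rintro ⟨_, hJ, _⟩
        exact ⟨Finset.subset_univ _, hJ⟩
      · rintro ⟨_, hJ⟩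
        exact ⟨Finset.mem_univ _, hJ, by rw [hsumd, hJ]⟩
    rw [e2, Finset.card_powersetCard, Finset.card_univ, Fintype.card_fin]

end Pool.Agent.Results.MP_e2ce73_al.WeightedTotalRank
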